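import Mathlib
import Pool.Agent.H820.SecDom.Main

/-!
# Secure domination and independence number: the bound `3/2` fails for `P_t`-free graphs for all `t ≥ 7`

The graph is the complement of the graph of the cubic residues modulo 127.
-/

set_option autoImplicit false

namespace Pool.Agent.Results.MP_82f784_co.FailsFromSeven

open SimpleGraph

/-- Every vertex outside `S` has a neighbour in `S`. -/
def Dominating {V : Type} (G : SimpleGraph V) (S : Finset V) : Prop :=
  ∀ v, v ∉ S → ∃ u ∈ S, G.Adj u v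

/-- `S` is dominating, and every vertex `v` outside `S` has a neighbour `u` in `S` such that `(S ∖ {u}) ∪ {v}` is
dominating. -/
def SecureDominating {V : Type} [DecidableEq V] (G : SimpleGraph V) (S : Finset V) : Prop :=
  Dominating G S ∧ ∀ v, v ∉ S → ∃ u ∈ S, G.Adj u v ∧ Dominating G (insert v (S.erase u))

/-- the least size of a secure dominating set -/
noncomputable def secureDominationNumber {V : Type} [DecidableEq V] (G : SimpleGraph V) : ℕ :=
  sInf {k | ∃ S : Finset V, SecureDominating G S ∧ S.card = k}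

/-- no induced path on `t` vertices -/
def PathFree {V : Type} (t : ℕ) (G : SimpleGraph V) : Prop := IsEmpty (pathGraph t ↪g G)

/-- Every finite `P_t`-free graph satisfies `γ_s ≤ 3/2 α`. -/
def Bound (t : ℕ) : Prop :=
  ∀ (V : Type) [Fintype V] [DecidableEq V] (G : SimpleGraph V), PathFree t G →
    (secureDominationNumber G : ℝ) ≤ 3 / 2 * G.indepNum

/-- The vertices are the integers modulo 127; `x` and `y` are adjacent if `x ≠ y` and `x - y` is not a cube. -/
def graph : SimpleGraph (ZMod 127) where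
  Adj x y := x ≠ y ∧ ¬ ∃ z, x - y = z ^ 3
  symm := ⟨by
    rintro x y ⟨h1, h2⟩
    exact ⟨h1.symm, fun ⟨z, hz⟩ => h2 ⟨-z, by rw [← neg_sub, hz]; ring⟩⟩⟩
  loopless := ⟨fun x h => h.1 rfl⟩

open Pool.Agent.H820.SecDom

theorem cube : ∀ x < 127, x ^ 42 % 127 = 1 → ∃ z < 127, z ^ 3 % 127 = x := by decide +kernel

theorem graph_adj {x y : ZMod 127} : graph.Adj x y ↔ x ≠ y ∧ ¬ h x y := by
  have : Fact (Nat.Prime 127) := ⟨by norm_num⟩
  show (x ≠ y ∧ ¬ ∃ z, x - y = z ^ 3) ↔ _
  refine and_congr_right fun hxy => not_congr ?_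
  have h0 : x - y ≠ 0 := sub_ne_zero.2 hxy
  unfold h
  constructor
  · rintro ⟨z, hz⟩
    have hz0 : z ≠ 0 := by
      rintro rfl
      exact h0 (by rw [hz]; ring)
    rw [hz, ← pow_mul]
    exact ZMod.pow_card_sub_one_eq_one hz0
  · intro h1
    obtain ⟨w, hw⟩ : ∃ w, w = x - y := ⟨_, rfl⟩
    rw [← hw] at h1 ⊢
    have e : ((w.val ^ 42 : ℕ) : ZMod 127) = ((1 : ℕ) : ZMod 127) := by
      rw [Nat.cast_pow, ZMod.natCast_zmod_val, h1, Nat.cast_one]
    rw [ZMod.natCast_eq_natCast_iff'] at e
    obtain ⟨z, -, hz⟩ := cube w.val w.val_lt e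
    refine ⟨z, ?_⟩
    have e2 : ((z ^ 3 : ℕ) : ZMod 127) = (w.val : ℕ) := by
      rw [ZMod.natCast_eq_natCast_iff', hz, Nat.mod_eq_of_lt w.val_lt]
    rw [ZMod.natCast_zmod_val, Nat.cast_pow] at e2
    exact e2.symm

theorem not_dom {T : Finset (ZMod 127)} {y : ZMod 127} (hy : ∀ e ∈ T, h e y) : ¬ Dominating graph T := by
  intro hd
  obtain ⟨u, hu, hadj⟩ := hd y (fun hyT => h_ne (hy y hyT) rfl)
  exact (graph_adj.1 hadj).2 (hy u hu)

theorem not_secure {a b c d : ZMod 127} (H : Bad a b c d) : ¬ SecureDominating graph {a, b, c, d} := by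
  rintro ⟨hdom, hsec⟩
  rcases H with ⟨y, h1, h2, h3, h4⟩ | ⟨v, n1, n2, n3, n4, h1, h2, h3, h4⟩
  · refine not_dom (y := y) (fun e he => ?_) hdom
    simp only [Finset.mem_insert, Finset.mem_singleton] at he
    rcases he with rfl | rfl | rfl | rfl
    · exact h1
    · exact h2
    · exact h3
    · exact h4
  · obtain ⟨u, hu, hadj, hd⟩ := hsec v (by
      simp only [Finset.mem_insert, Finset.mem_singleton]
      rintro (e | e | e | e)
      · exact n1 e
      · exact n2 e
      · exact n3 e
      · exact n4 e)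
    have huv : ¬ h u v := (graph_adj.1 hadj).2
    simp only [Finset.mem_insert, Finset.mem_singleton] at hu
    have key : ∀ y, (∀ e, e = a ∨ e = b ∨ e = c ∨ e = d → e ≠ u → h e y) → h v y → False := by
      intro y hy hv
      refine not_dom (y := y) (fun e he => ?_) hd
      simp only [Finset.mem_insert, Finset.mem_erase, Finset.mem_singleton] at he
      rcases he with rfl | ⟨he1, he2⟩
      · exact hv
      · exact hy e he2 he1
    rcases hu with rfl | rfl | rfl | rfl
    · rcases h1 with h1 | ⟨y, a1, a2, a3, a4⟩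
      · exact huv h1
      · refine key y (fun e he hne => ?_) a4
        rcases he with rfl | rfl | rfl | rfl
        exacts [absurd rfl hne, a1, a2, a3]
    · rcases h2 with h1 | ⟨y, a1, a2, a3, a4⟩
      · exact huv h1
      · refine key y (fun e he hne => ?_) a4
        rcases he with rfl | rfl | rfl | rfl
        exacts [a1, absurd rfl hne, a2, a3]
    · rcases h3 with h1 | ⟨y, a1, a2, a3, a4⟩
      · exact huv h1
      · refine key y (fun e he hne => ?_) a4
        rcases he with rfl | rfl | rfl | rfl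
        exacts [a1, a2, absurd rfl hne, a3]
    · rcases h4 with h1 | ⟨y, a1, a2, a3, a4⟩
      · exact huv h1
      · refine key y (fun e he hne => ?_) a4
        rcases he with rfl | rfl | rfl | rfl
        exacts [a1, a2, a3, absurd rfl hne]

theorem dom_mono {V : Type} {G : SimpleGraph V} {S T : Finset V} (hST : S ⊆ T) (hS : Dominating G S) :
    Dominating G T := by
  intro v hv
  obtain ⟨u, hu, ha⟩ := hS v (fun h => hv (hST h))
  exact ⟨u, hST hu, ha⟩

theorem secure_mono {V : Type} [DecidableEq V] {G : SimpleGraph V} {S T : Finset V} (hST : S ⊆ T)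
    (hS : SecureDominating G S) : SecureDominating G T := by
  refine ⟨dom_mono hST hS.1, fun v hv => ?_⟩
  obtain ⟨u, hu, ha, hd⟩ := hS.2 v (fun h => hv (hST h))
  exact ⟨u, hST hu, ha, dom_mono (Finset.insert_subset_insert _ (Finset.erase_subset_erase _ hST)) hd⟩

theorem secure_univ {V : Type} [DecidableEq V] [Fintype V] (G : SimpleGraph V) :
    SecureDominating G Finset.univ :=
  ⟨fun v hv => absurd (Finset.mem_univ v) hv, fun v hv => absurd (Finset.mem_univ v) hv⟩

theorem five_le (S : Finset (ZMod 127)) (hS : SecureDominating graph S) : 5 ≤ S.card := by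
  by_contra hc
  obtain ⟨T, hST, hT⟩ := Finset.exists_superset_card_eq (s := S) (n := 4) (by omega) (by rw [ZMod.card]; norm_num)
  obtain ⟨a, b, c, d, h1, h2, h3, h4, h5, h6, rfl⟩ := Finset.card_eq_four.1 hT
  exact not_secure (all_bad h1 h2 h3 h4 h5 h6) (secure_mono hST hS)

theorem up_spec : ∀ n, upLoop n = true → ∀ v < n, 5 ≤ v →
    (sw v 0 (A 1 &&& A 2 &&& A 3 &&& A 4) = true ∨ sw v 1 (A 0 &&& A 2 &&& A 3 &&& A 4) = true ∨
      sw v 2 (A 0 &&& A 1 &&& A 3 &&& A 4) = true ∨ sw v 3 (A 0 &&& A 1 &&& A 2 &&& A 4) = true ∨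
      sw v 4 (A 0 &&& A 1 &&& A 2 &&& A 3) = true) := by
  intro n
  induction n with
  | zero => intro _ y hy; omega
  | succ n ih =>
    intro hl y hy h5y
    simp only [upLoop, Bool.and_eq_true, Bool.or_eq_true, decide_eq_true_eq] at hl
    rcases Nat.lt_or_ge y n with h5 | h5
    · exact ih hl.2 y h5 h5y
    · have h6 : y = n := by omega
      subst h6
      rcases hl.1 with h7 | h7
      · omega
      · exact h7

theorem tr_spec : ∀ n, trLoop n = true → ∀ x < n, (A 0 &&& A 1).testBit x = true → (A 0 &&& A 1 &&& A x) = 0 := by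
  intro n
  induction n with
  | zero => intro _ y hy; omega
  | succ n ih =>
    intro hl y hy
    simp only [trLoop, Bool.and_eq_true, Bool.or_eq_true, Bool.not_eq_true', beq_iff_eq] at hl
    rcases Nat.lt_or_ge y n with h5 | h5
    · exact ih hl.2 y h5
    · have h6 : y = n := by omega
      subst h6
      intro hb
      rcases hl.1 with h7 | h7
      · rw [h7] at hb
        exact absurd hb (by decide)
      · exact h7

theorem no_clique {a b c d : ZMod 127} (hab : h a b) (hac : h a c) (had : h a d) (hbc : h b c) (hbd : h b d)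
    (hcd : h c d) : False := by
  have : Fact (Nat.Prime 127) := ⟨by norm_num⟩
  obtain ⟨l, hl⟩ : ∃ l, l = (b - a)⁻¹ := ⟨_, rfl⟩
  have hba : b - a ≠ 0 := sub_ne_zero.2 (h_ne hab).symm
  have hl42 : l ^ 42 = 1 := by
    have h1 : (b - a) ^ 42 = 1 := h_comm.1 hab
    rw [hl, inv_pow, h1, inv_one]
  have e0 : l * a + -(l * a) = ((0 : ℕ) : ZMod 127) := by rw [Nat.cast_zero]; ring
  have e1 : l * b + -(l * a) = ((1 : ℕ) : ZMod 127) := by
    rw [Nat.cast_one, show l * b + -(l * a) = l * (b - a) by ring, hl, inv_mul_cancel₀ hba]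
  obtain ⟨y, hy⟩ : ∃ y, y = l * c + -(l * a) := ⟨_, rfl⟩
  obtain ⟨z, hz⟩ : ∃ z, z = l * d + -(l * a) := ⟨_, rfl⟩
  rw [← h_affine (m := -(l * a)) hl42] at hac had hbc hbd hcd
  rw [← hy, ← ZMod.natCast_zmod_val y] at hac hbc hcd
  rw [← hz, ← ZMod.natCast_zmod_val z] at had hbd hcd
  rw [e0] at hac had
  rw [e1] at hbc hbd
  have hy2 : y.val < 127 := y.val_lt
  have hz2 : z.val < 127 := z.val_lt
  have f0 := (bit_iff (by norm_num) hy2).2 hac
  have f1 := (bit_iff (by norm_num) hy2).2 hbc
  have g0 := (bit_iff (by norm_num) hz2).2 had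
  have g1 := (bit_iff (by norm_num) hz2).2 hbd
  have g2 := (bit_iff hy2 hz2).2 hcd
  have f3 : (A 0 &&& A 1).testBit y.val = true := by
    rw [Nat.testBit_and, f0, f1]; rfl
  have f4 := tr_spec 127 ctr y.val hy2 f3
  have f5 : (A 0 &&& A 1 &&& A y.val).testBit z.val = true := by
    rw [Nat.testBit_and, Nat.testBit_and, g0, g1, g2]; rfl
  rw [f4] at f5
  simp at f5

theorem not_adj {x y : ZMod 127} (hxy : x ≠ y) (hh : ¬ graph.Adj x y) : h x y := by
  by_contra hc
  exact hh (graph_adj.2 ⟨hxy, hc⟩)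

theorem indep_le (S : Finset (ZMod 127)) (hS : graph.IsIndepSet S) : S.card ≤ 3 := by
  by_contra hc
  obtain ⟨T, hTS, hT⟩ := Finset.exists_subset_card_eq (s := S) (n := 4) (by omega)
  obtain ⟨a, b, c, d, h1, h2, h3, h4, h5, h6, rfl⟩ := Finset.card_eq_four.1 hT
  have ha : a ∈ (S : Set (ZMod 127)) := hTS (by simp)
  have hb : b ∈ (S : Set (ZMod 127)) := hTS (by simp)
  have hc' : c ∈ (S : Set (ZMod 127)) := hTS (by simp)
  have hd : d ∈ (S : Set (ZMod 127)) := hTS (by simp)
  exact no_clique (not_adj h1 (hS ha hb h1)) (not_adj h2 (hS ha hc' h2)) (not_adj h3 (hS ha hd h3))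
    (not_adj h4 (hS hb hc' h4)) (not_adj h5 (hS hb hd h5)) (not_adj h6 (hS hc' hd h6))

theorem indepNum_eq : graph.indepNum = 3 := by
  apply le_antisymm
  · obtain ⟨S, hS⟩ := graph.exists_isNIndepSet_indepNum
    rw [← hS.card_eq]
    exact indep_le S hS.isIndepSet
  · have h1 : graph.IsIndepSet (({0, 1, 2} : Finset (ZMod 127)) : Set (ZMod 127)) := by
      intro x hx y hy hxy hadj
      refine (graph_adj.1 hadj).2 ?_
      simp only [Finset.coe_insert, Finset.coe_singleton, Set.mem_insert_iff, Set.mem_singleton_iff] at hx hy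
      unfold h
      rcases hx with rfl | rfl | rfl <;> rcases hy with rfl | rfl | rfl <;> first | exact absurd rfl hxy | decide +kernel
    have h2 := h1.card_le_indepNum
    exact h2

theorem dom_five {a b c d v : ℕ} (ha : a < 127) (hb : b < 127) (hc : c < 127) (hd : d < 127) (hv : v < 127)
    (hz : (A a &&& A b &&& A c &&& A d &&& A v) = 0) {T : Finset (ZMod 127)} (h1 : (a : ZMod 127) ∈ T)
    (h2 : (b : ZMod 127) ∈ T) (h3 : (c : ZMod 127) ∈ T) (h4 : (d : ZMod 127) ∈ T) (h5 : (v : ZMod 127) ∈ T) :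
    Dominating graph T := by
  intro y hy
  by_contra hc2
  push Not at hc2
  have key : ∀ n : ℕ, n < 127 → (n : ZMod 127) ∈ T → (A n).testBit y.val = true := by
    intro n hn hnT
    apply (bit_iff hn y.val_lt).2
    rw [ZMod.natCast_zmod_val]
    exact not_adj (fun e => hy (by rw [← e]; exact hnT)) (hc2 _ hnT)
  have f5 : (A a &&& A b &&& A c &&& A d &&& A v).testBit y.val = true := by
    simp only [Nat.testBit_and, key a ha h1, key b hb h2, key c hc h3, key d hd h4, key v hv h5, Bool.and_self]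
  rw [hz] at f5
  simp at f5

theorem secure_five : SecureDominating graph ({0, 1, 2, 3, 4} : Finset (ZMod 127)) := by
  have main : ∀ v : ZMod 127, v ∉ ({0, 1, 2, 3, 4} : Finset (ZMod 127)) → ∃ u ∈ ({0, 1, 2, 3, 4} : Finset (ZMod 127)),
      graph.Adj u v ∧ Dominating graph (insert v (({0, 1, 2, 3, 4} : Finset (ZMod 127)).erase u)) := by
    intro v hv
    have hv1 : v.val < 127 := v.val_lt
    have ev : ((v.val : ℕ) : ZMod 127) = v := ZMod.natCast_zmod_val v
    have hv5 : 5 ≤ v.val := by
      by_contra hc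
      apply hv
      rw [← ev]
      have : v.val = 0 ∨ v.val = 1 ∨ v.val = 2 ∨ v.val = 3 ∨ v.val = 4 := by omega
      rcases this with e | e | e | e | e <;> rw [e] <;> simp
    have step : ∀ (u a b c d : ℕ), u < 5 → a < 5 → b < 5 → c < 5 → d < 5 → a ≠ u → b ≠ u → c ≠ u → d ≠ u →
        sw v.val u (A a &&& A b &&& A c &&& A d) = true → ∃ u ∈ ({0, 1, 2, 3, 4} : Finset (ZMod 127)),
      graph.Adj u v ∧ Dominating graph (insert v (({0, 1, 2, 3, 4} : Finset (ZMod 127)).erase u)) := by
      intro u a b c d hu ha hb hc hd na nb nc nd hs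
      simp only [sw, Bool.and_eq_true, Bool.not_eq_true', beq_iff_eq] at hs
      obtain ⟨s1, s2⟩ := hs
      have mem5 : ∀ n : ℕ, n < 5 → (n : ZMod 127) ∈ ({0, 1, 2, 3, 4} : Finset (ZMod 127)) := by
        intro n hn
        have : n = 0 ∨ n = 1 ∨ n = 2 ∨ n = 3 ∨ n = 4 := by omega
        rcases this with rfl | rfl | rfl | rfl | rfl <;> simp
      have memT : ∀ n : ℕ, n < 5 → n ≠ u →
          (n : ZMod 127) ∈ insert v (({0, 1, 2, 3, 4} : Finset (ZMod 127)).erase (u : ZMod 127)) := by
        intro n hn hnu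
        rw [Finset.mem_insert, Finset.mem_erase]
        exact Or.inr ⟨cast_ne (by omega) (by omega) hnu, mem5 n hn⟩
      refine ⟨(u : ZMod 127), mem5 u hu, graph_adj.2 ⟨?_, ?_⟩, ?_⟩
      · rw [← ev]
        exact cast_ne (by omega) hv1 (by omega)
      · intro hh
        have h2 : (A v.val).testBit u = true := by
          apply (bit_iff hv1 (by omega)).2
          rw [ev]
          exact h_comm.1 hh
        rw [h2] at s1
        exact absurd s1 (by decide)
      · refine dom_five (by omega) (by omega) (by omega) (by omega) hv1 s2 (memT a ha na) (memT b hb nb)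
          (memT c hc nc) (memT d hd nd) ?_
        rw [ev]
        exact Finset.mem_insert_self _ _
    rcases up_spec 127 cup v.val hv1 hv5 with hs | hs | hs | hs | hs
    · exact step 0 1 2 3 4 (by norm_num) (by norm_num) (by norm_num) (by norm_num) (by norm_num) (by norm_num)
        (by norm_num) (by norm_num) (by norm_num) hs
    · exact step 1 0 2 3 4 (by norm_num) (by norm_num) (by norm_num) (by norm_num) (by norm_num) (by norm_num)
        (by norm_num) (by norm_num) (by norm_num) hs
    · exact step 2 0 1 3 4 (by norm_num) (by norm_num) (by norm_num) (by norm_num) (by norm_num) (by norm_num)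
        (by norm_num) (by norm_num) (by norm_num) hs
    · exact step 3 0 1 2 4 (by norm_num) (by norm_num) (by norm_num) (by norm_num) (by norm_num) (by norm_num)
        (by norm_num) (by norm_num) (by norm_num) hs
    · exact step 4 0 1 2 3 (by norm_num) (by norm_num) (by norm_num) (by norm_num) (by norm_num) (by norm_num)
        (by norm_num) (by norm_num) (by norm_num) hs
  refine ⟨fun v hv => ?_, main⟩
  obtain ⟨u, hu, ha, -⟩ := main v hv
  exact ⟨u, hu, ha⟩

theorem sdn_eq : secureDominationNumber graph = 5 := by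
  apply le_antisymm
  · exact Nat.sInf_le ⟨_, secure_five, rfl⟩
  · obtain ⟨S, hS, hc⟩ := Nat.sInf_mem (s := {k | ∃ S : Finset (ZMod 127), SecureDominating graph S ∧ S.card = k})
      ⟨_, _, secure_univ graph, rfl⟩
    unfold secureDominationNumber
    rw [← hc]
    exact five_le S hS

theorem pathFree {t : ℕ} (ht : 7 ≤ t) : PathFree t graph := by
  refine ⟨fun f => ?_⟩
  have key : ∀ i j : Fin t, i.val + 2 ≤ j.val → h (f i) (f j) := by
    intro i j hij
    apply not_adj
    · intro e
      have := f.injective e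
      rw [this] at hij
      omega
    · intro e
      have h1 := f.map_rel_iff.1 e
      rw [pathGraph_adj] at h1
      omega
  exact no_clique (key ⟨0, by omega⟩ ⟨2, by omega⟩ (by simp)) (key ⟨0, by omega⟩ ⟨4, by omega⟩ (by simp))
    (key ⟨0, by omega⟩ ⟨6, by omega⟩ (by simp)) (key ⟨2, by omega⟩ ⟨4, by omega⟩ (by simp))
    (key ⟨2, by omega⟩ ⟨6, by omega⟩ (by simp)) (key ⟨4, by omega⟩ ⟨6, by omega⟩ (by simp))

/-- **The bound `γ_s ≤ 3/2 α` fails for `P_t`-free graphs for all `t ≥ 7`.** -/
theorem result :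
    graph.indepNum = 3 ∧ secureDominationNumber graph = 5 ∧ ∀ t, 7 ≤ t → PathFree t graph ∧ ¬ Bound t := by
  refine ⟨indepNum_eq, sdn_eq, fun t ht => ⟨pathFree ht, fun hB => ?_⟩⟩
  have h1 := hB (ZMod 127) graph (pathFree ht)
  rw [indepNum_eq, sdn_eq] at h1
  norm_num at h1

end Pool.Agent.Results.MP_82f784_co.FailsFromSeven
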